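import Pool.Agent.helper5.IH.Spec2

/-! Row TPQ of project ih (MP_45d809_mp) -/

set_option autoImplicit false

namespace Pool.Agent.IH
open Finset CT SYM

/-- An invariant function is constant on circuits. -/
theorem TPQ_tw {V : Type} {G : SimpleGraph V} (τ : G.Dart → G.Dart) (ψ : G.Dart → Bool)
    (h1 : ∀ d, ψ d.symm = ψ d) (h2 : ∀ d, ψ (τ d) = ψ d) (v : V)
    (h : ∃ d d' : G.Dart, d.fst = v ∧ d'.fst = v ∧ ψ d ≠ ψ d') : Tw τ v := by
  obtain ⟨d, d', hd, hd', hne⟩ := h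
  refine ⟨d, d', hd, hd', fun hc => hne ?_⟩
  have key : ∀ a b : G.Dart, (b = a.symm ∨ b = τ a) → ψ a = ψ b := by
    rintro a b (h | h)
    · rw [h, h1]
    · rw [h, h2]
  exact congrArg (Quot.lift ψ key) hc

theorem TPQ (hCNX : SYM.CNX_stmt) (hMIN : MIN_stmt) (hEUW : EUW_stmt) (hIDP : IDP_stmt)
    (hFORM : FORM_stmt) (hMNC : MNC_stmt) (hADJ : ADJ_stmt) : TPQ_stmt := by
  classical
  intro V _ _ G b c hG hV hv hc
  obtain ⟨v0, hv0⟩ := hv
  have hC : G.Connected := hCNX V G v0 hG hV hv0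
  obtain ⟨τ, hτ, hb, hTw⟩ := hMNC V G b c hG hc
  obtain ⟨τ', S, h1, h2, h3, h4⟩ := hMIN V G τ hG hC hτ.1
  obtain ⟨m, q, hq, hF⟩ := hEUW V G τ' h1 h2
  obtain ⟨h5, h6⟩ := hIDP V G m q τ τ' S hG hq hτ.1 h1 hF h3
  have hn : nci τ = S.card + 1 := le_antisymm h5 h4
  have hind := h6 h4
  have hodd : Odd (numHam (IG m q)) := by
    by_contra hev
    rw [Nat.not_odd_iff_even] at hev
    obtain ⟨k, hk, hkm⟩ := hFORM V G m q v0 hG (by omega) hq
    refine hv0 ⟨k, hk, hkm.trans ?_⟩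
    rw [Nat.card_zmod]
    obtain ⟨j, hj⟩ := hev
    rw [hj]
    unfold Int.ModEq
    omega
  have hadj := hADJ V G m q τ τ' S hG hq hτ.1 h1 hF h3 hn
  have hSS : ∀ z ∈ S, Shared G c z := by
    intro z hz
    obtain ⟨ψ, p1, p2, p3, -⟩ := hadj z hz
    exact (hTw z).1 (TPQ_tw τ ψ p1 p2 z ((p3 z hz).2 rfl))
  refine ⟨m, q, τ, S, univ.filter (fun v => v ∉ S ∧ Shared G c v), hq, hodd, hτ, hb, hn, ?_, ?_,
    ?_, hadj⟩
  · rw [Finset.disjoint_left]
    intro v hv hv'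
    exact (Finset.mem_filter.1 hv').2.1 hv
  · intro v
    constructor
    · rintro (h | h)
      · exact hSS v h
      · exact (Finset.mem_filter.1 h).2.2
    · intro h
      by_cases hvS : v ∈ S
      · exact Or.inl hvS
      · exact Or.inr (Finset.mem_filter.2 ⟨Finset.mem_univ _, hvS, h⟩)
  · intro z hz v hzv
    have hvS : v ∉ S := fun h => hind z hz v h hzv
    obtain ⟨ψ, p1, p2, -, p4⟩ := hadj z hz
    refine Finset.mem_filter.2 ⟨Finset.mem_univ _, hvS, (hTw v).1 ?_⟩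
    exact TPQ_tw τ ψ p1 p2 v ((p4 v hvS).2 hzv)

end Pool.Agent.IH
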